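import Pool.Agent.TH318.DenseSum

/-!
# MP_771c73: bounded extensions with `G + [f_n]_⊥` dense need not exist

If `G` is an uncomplemented closed subspace of a separable Banach space `E` and the bounded sequence
`φ_n` is norming on `G`, then for all bounded extensions `f_n` the sum `G + [f_n]_⊥` is not dense.
The example is the kernel of the quotient map of `ℓ₁` onto `c₀` which maps the unit vectors to the
finitely supported sign vectors.
-/

set_option autoImplicit false
open Pool.Agent.TH318.DenseSum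

namespace Pool.Agent.Results.MP_771c73_an.NotAlwaysDense

/-- the answer to the question for the closed subspace `G` and the sequence `φ`: there is a bounded
sequence of extensions `f n` of the `φ n` to `E` such that `G + [f_n]_⊥` is dense in `E` -/
def HasDenseExtension {𝕜 E : Type} [RCLike 𝕜] [NormedAddCommGroup E] [NormedSpace 𝕜 E]
    (G : Submodule 𝕜 E) (φ : ℕ → (G →L[𝕜] 𝕜)) : Prop :=
  ∃ f : ℕ → (E →L[𝕜] 𝕜), (∀ (n : ℕ) (g : G), f n g = φ n g) ∧ (∃ C : ℝ, ∀ n, ‖f n‖ ≤ C) ∧
    Dense {x : E | ∃ g ∈ G, ∃ y : E, (∀ n, f n y = 0) ∧ x = g + y}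

/-- The question has a negative answer, both for real and for complex scalars. First part: for every
uncomplemented closed subspace `G` of every separable Banach space there is a sequence `φ` in the
unit ball of the dual of `G` without extensions as in the question. Second part: there are a
separable Banach space and an uncomplemented closed subspace. -/
theorem result (𝕜 : Type) [RCLike 𝕜] :
    (∀ (E : Type) [NormedAddCommGroup E] [NormedSpace 𝕜 E] [CompleteSpace E]
      [TopologicalSpace.SeparableSpace E] (G : Submodule 𝕜 E), IsClosed (G : Set E) →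
      ¬ G.ClosedComplemented →
      ∃ φ : ℕ → (G →L[𝕜] 𝕜), (∀ n, ‖φ n‖ ≤ 1) ∧ ¬ HasDenseExtension G φ) ∧
    ∃ (E : Type) (_ : NormedAddCommGroup E) (_ : NormedSpace 𝕜 E),
      CompleteSpace E ∧ TopologicalSpace.SeparableSpace E ∧
      ∃ G : Submodule 𝕜 E, IsClosed (G : Set E) ∧ ¬ G.ClosedComplemented ∧
        ∃ φ : ℕ → (G →L[𝕜] 𝕜), (∀ n, ‖φ n‖ ≤ 1) ∧ ¬ HasDenseExtension G φ := by
  have h1 : ∀ (E : Type) [NormedAddCommGroup E] [NormedSpace 𝕜 E] [CompleteSpace E]
      [TopologicalSpace.SeparableSpace E] (G : Submodule 𝕜 E), IsClosed (G : Set E) →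
      ¬ G.ClosedComplemented →
      ∃ φ : ℕ → (G →L[𝕜] 𝕜), (∀ n, ‖φ n‖ ≤ 1) ∧ ¬ HasDenseExtension G φ := by
    intro E _ _ _ _ G hG hGc
    obtain ⟨φ, h1, h2⟩ := not_dense hG hGc
    refine ⟨φ, h1, ?_⟩
    rintro ⟨f, hf, hC, hd⟩
    exact h2 f hf hC hd
  refine ⟨h1, L1 𝕜, inferInstance, inferInstance, inferInstance, inferInstance, G 𝕜, isClosed_G,
    not_closedComplemented, ?_⟩
  exact h1 (L1 𝕜) (G 𝕜) isClosed_G not_closedComplemented

end Pool.Agent.Results.MP_771c73_an.NotAlwaysDense
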